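import Pool.Agent.Run7.h96.IX.Stm2

/-!
# Project IX (helper96), piece RC0 (helper590): the set of realisable points with `lam = 0` is convex

The proof follows helper305's proof of piece RC, without the third coordinate.
-/

set_option autoImplicit false

namespace Run7.h590.IX

open Run7.h96.IX

theorem dbound (d x y : ℝ) (h0 : 0 ≤ d) (h1 : d ≤ 1) : |d * (x - y)| ≤ |x| + |y| := by
  rw [abs_mul, abs_of_nonneg h0]
  have h2 : |x - y| ≤ |x| + |y| := abs_sub x y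
  have h3 : d * |x - y| ≤ 1 * |x - y| := mul_le_mul_of_nonneg_right h1 (abs_nonneg _)
  linarith

theorem t_RC0 (hPAD : S_PAD) : S_RC0 := by
  obtain ⟨hmul, -, -, -⟩ := hPAD
  rintro ⟨p1, p2⟩ hp ⟨q1, q2⟩ hq a b ha hb hab
  rcases ha.eq_or_lt with ha0 | ha0
  · have hb1 : b = 1 := by linarith
    rw [← ha0, hb1, zero_smul, one_smul, zero_add]
    exact hq
  rcases hb.eq_or_lt with hb0 | hb0
  · have ha1 : a = 1 := by linarith
    rw [← hb0, ha1, zero_smul, one_smul, add_zero]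
    exact hp
  intro ε hε
  obtain ⟨n1, h1⟩ := hp (ε / 2) (by positivity)
  obtain ⟨n2, h2⟩ := hq (ε / 2) (by positivity)
  dsimp only at h1 h2
  set B : ℝ := |p1| + |q1| + (|p2| + |q2|) with hB
  have b1 : |p1| + |q1| ≤ B := by
    rw [hB]; linarith [abs_nonneg p2, abs_nonneg q2]
  have b2 : |p2| + |q2| ≤ B := by
    rw [hB]; linarith [abs_nonneg p1, abs_nonneg q1]
  refine ⟨⌈((n1 : ℝ) + 1) / a⌉₊ + ⌈(n2 : ℝ) / b⌉₊ + ⌈2 * B / ε⌉₊, fun n hn => ?_⟩
  have hnR : ((⌈((n1 : ℝ) + 1) / a⌉₊ : ℝ) + ⌈(n2 : ℝ) / b⌉₊ + ⌈2 * B / ε⌉₊ : ℝ) ≤ n := by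
    exact_mod_cast hn
  have c1 := Nat.le_ceil (((n1 : ℝ) + 1) / a)
  have c2 := Nat.le_ceil ((n2 : ℝ) / b)
  have c3 := Nat.le_ceil (2 * B / ε)
  have hB0 : 0 ≤ B := by positivity
  have z1 : (0 : ℝ) ≤ ((n1 : ℝ) + 1) / a := by positivity
  have z2 : (0 : ℝ) ≤ (n2 : ℝ) / b := by positivity
  have z3 : (0 : ℝ) ≤ 2 * B / ε := by positivity
  have e1 : ((n1 : ℝ) + 1) ≤ n * a := (div_le_iff₀ ha0).1 (by linarith)
  have e2 : (n2 : ℝ) ≤ n * b := (div_le_iff₀ hb0).1 (by linarith)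
  have e3 : 2 * B ≤ n * ε := (div_le_iff₀ hε).1 (by linarith)
  have hn0 : (0 : ℝ) ≤ n := Nat.cast_nonneg n
  set k : ℕ := ⌊a * n⌋₊ with hk
  have k1 : (k : ℝ) ≤ a * n := Nat.floor_le (by positivity)
  have k2 : a * n < k + 1 := Nat.lt_floor_add_one _
  have hkn : k ≤ n := by
    have h3 : (k : ℝ) ≤ n := by nlinarith
    exact_mod_cast h3
  obtain ⟨r, hr⟩ : ∃ r, n = k + r := ⟨n - k, by omega⟩
  have hrR : (n : ℝ) = k + r := by exact_mod_cast hr
  obtain ⟨d, hd⟩ : ∃ d : ℝ, d = a * n - k := ⟨_, rfl⟩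
  have hd0 : 0 ≤ d := by linarith
  have hd1 : d ≤ 1 := by linarith
  have hkd : (k : ℝ) = a * n - d := by linarith
  have hrd : (r : ℝ) = b * n + d := by
    have h3 : b = 1 - a := by linarith
    rw [h3]; linarith
  have hkn1 : n1 ≤ k := by
    have h3 : (n1 : ℝ) ≤ k := by linarith
    exact_mod_cast h3
  have hrn2 : n2 ≤ r := by
    have h3 : (n2 : ℝ) ≤ r := by rw [hrd]; linarith
    exact_mod_cast h3
  obtain ⟨P, K, hP, hK, hA, i1, i2⟩ := h1 k hkn1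
  obtain ⟨P', K', hP', hK', hA', j1, j2⟩ := h2 r hrn2
  have hPne : (P : ℝ) ≠ 0 := by
    have : P ≠ 0 := by omega
    exact_mod_cast this
  have hPne' : (P' : ℝ) ≠ 0 := by
    have : P' ≠ 0 := by omega
    exact_mod_cast this
  have hKne : (K : ℝ) ≠ 0 := by
    have : K ≠ 0 := by omega
    exact_mod_cast this
  have hKne' : (K' : ℝ) ≠ 0 := by
    have : K' ≠ 0 := by omega
    exact_mod_cast this
  refine ⟨P * P', K * K', Nat.mul_pos hP hP', Nat.mul_pos hK hK', ?_, ?_, ?_⟩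
  · rw [hr]
    exact hmul k P K 0 r P' K' 0 hA hA'
  · have d1 := abs_le.1 (dbound d p1 q1 hd0 hd1)
    rw [Nat.cast_mul, Real.logb_mul hPne hPne']
    show (a * p1 + b * q1 - ε) * n ≤ _
    rw [hkd] at i1
    rw [hrd] at j1
    have h5 : (p1 - ε / 2) * (a * n - d) + (q1 - ε / 2) * (b * n + d) =
        (a * p1 + b * q1) * n - (ε / 2) * ((a + b) * n) - d * (p1 - q1) := by ring
    rw [hab, one_mul] at h5
    have h6 : (a * p1 + b * q1 - ε) * n = (a * p1 + b * q1) * n - n * ε := by ring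
    have h7 : (ε / 2) * (n : ℝ) = (n * ε) / 2 := by ring
    linarith [d1.2]
  · have d1 := abs_le.1 (dbound d p2 q2 hd0 hd1)
    rw [Nat.cast_mul, Real.logb_mul hKne hKne']
    show _ ≤ (a * p2 + b * q2 + ε) * n
    rw [hkd] at i2
    rw [hrd] at j2
    have h5 : (p2 + ε / 2) * (a * n - d) + (q2 + ε / 2) * (b * n + d) =
        (a * p2 + b * q2) * n + (ε / 2) * ((a + b) * n) - d * (p2 - q2) := by ring
    rw [hab, one_mul] at h5
    have h6 : (a * p2 + b * q2 + ε) * n = (a * p2 + b * q2) * n + n * ε := by ring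
    have h7 : (ε / 2) * (n : ℝ) = (n * ε) / 2 := by ring
    linarith [d1.1]

end Run7.h590.IX
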